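import Pool.Agent.X26.LF.Stm

set_option autoImplicit false

namespace Pool.Agent.X43.LF

open Filter

theorem poly_le (D K : ℕ) : ∃ L0 : ℕ, ∀ L, L0 ≤ L → K * (L + 2) ^ D ≤ 2 ^ L := by
  have h := tendsto_pow_const_div_const_pow_of_one_lt D (r := (2:ℝ)) (by norm_num)
  have h1 : ∀ᶠ n : ℕ in atTop, (n:ℝ) ^ D / 2 ^ n < 1 / (4 * ((K:ℝ) + 1)) :=
    h.eventually_lt_const (by positivity)
  obtain ⟨N, hN⟩ := eventually_atTop.1 h1
  refine ⟨N, fun L hL => ?_⟩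
  have h2 := hN (L + 2) (by omega)
  have hK : (0:ℝ) < 4 * ((K:ℝ) + 1) := by positivity
  rw [div_lt_div_iff₀ (by positivity) hK] at h2
  have h3 : (K:ℝ) * ((L + 2 : ℕ) : ℝ) ^ D ≤ 2 ^ L := by
    have e1 : (2:ℝ) ^ (L + 2) = 4 * 2 ^ L := by rw [pow_add]; ring
    rw [e1] at h2
    have e2 : (0:ℝ) ≤ ((L + 2 : ℕ) : ℝ) ^ D := by positivity
    nlinarith
  exact_mod_cast h3

theorem siz1 (m C : ℕ) (hm : 2 ≤ m) (hC : 1 ≤ C) : ∃ P : ℕ, ∀ p : ℕ, P ≤ p → ∃ N : ℕ,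
    C * p ≤ N.descFactorial m ∧ C * ((Nat.log 2 p + 2) * N) ^ (2 * m - 1) ≤ p ^ 2 := by
  obtain ⟨L0, hL0⟩ := poly_le ((2 * m - 1) * m)
    ((C ^ 3 * 4 ^ (2 * m - 1) + m + 1) ^ m)
  refine ⟨2 ^ L0, fun p hp => ?_⟩
  set L := Nat.log 2 p with hL
  have hp0 : p ≠ 0 := by
    have : 0 < 2 ^ L0 := by positivity
    omega
  have hLL : L0 ≤ L := Nat.le_log_of_pow_le (by norm_num) hp
  have h2L : 2 ^ L ≤ p := Nat.pow_log_le_self 2 hp0
  have hQ := hL0 L hLL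
  set X := C ^ 3 * (4 * (L + 2)) ^ (2 * m - 1) with hX
  have hXQ : (X + m + 1) ^ m ≤ p := by
    refine le_trans ?_ (hQ.trans h2L)
    rw [pow_mul, ← mul_pow]
    apply Nat.pow_le_pow_left
    have h1 : 1 ≤ (L + 2) ^ (2 * m - 1) := Nat.one_le_pow _ _ (by omega)
    rw [hX, mul_pow]
    nlinarith
  -- least k with C p ≤ k ^ m
  have hex : ∃ k, C * p ≤ k ^ m := ⟨C * p, Nat.le_self_pow (by omega) _⟩
  classical
  obtain ⟨k, hk, hmin⟩ : ∃ k, C * p ≤ k ^ m ∧ ∀ j, j < k → j ^ m < C * p :=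
    ⟨Nat.find hex, Nat.find_spec hex, fun j hj => not_le.1 (Nat.find_min hex hj)⟩
  have hkX : X + m + 1 ≤ k := by
    have h1 : (X + m + 1) ^ m ≤ k ^ m := hXQ.trans ((Nat.le_mul_of_pos_left p hC).trans hk)
    exact (Nat.pow_le_pow_iff_left (by omega)).1 h1
  obtain ⟨j, rfl⟩ : ∃ j, k = j + 1 := ⟨k - 1, by omega⟩
  have hj := hmin j (by omega)
  refine ⟨m + j, ?_, ?_⟩
  · refine hk.trans ?_
    have h1 := Nat.pow_sub_le_descFactorial (m + j) m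
    have h2 : m + j + 1 - m = j + 1 := by omega
    rw [h2] at h1
    exact h1
  · have hjm : m + j ≤ 4 * j := by omega
    have h1 : C * ((L + 2) * (m + j)) ^ (2 * m - 1) ≤
        C * ((4 * (L + 2)) ^ (2 * m - 1) * j ^ (2 * m - 1)) := by
      apply Nat.mul_le_mul_left
      rw [← mul_pow]
      apply Nat.pow_le_pow_left
      calc (L + 2) * (m + j) ≤ (L + 2) * (4 * j) := Nat.mul_le_mul_left _ hjm
        _ = 4 * (L + 2) * j := by ring
    refine h1.trans ?_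
    have hj0 : 0 < j := by omega
    have h3 : C ^ 2 * (C * ((4 * (L + 2)) ^ (2 * m - 1) * j ^ (2 * m - 1))) ≤ C ^ 2 * p ^ 2 := by
      calc C ^ 2 * (C * ((4 * (L + 2)) ^ (2 * m - 1) * j ^ (2 * m - 1)))
          = X * j ^ (2 * m - 1) := by rw [hX]; ring
        _ ≤ j * j ^ (2 * m - 1) := Nat.mul_le_mul_right _ (by omega)
        _ = (j ^ m) ^ 2 := by
            rw [← pow_succ', ← pow_mul]
            congr 1
            omega
        _ ≤ (C * p) ^ 2 := Nat.pow_le_pow_left hj.le 2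
        _ = C ^ 2 * p ^ 2 := by ring
    exact Nat.le_of_mul_le_mul_left h3 (by positivity)

theorem t_SIZ : Pool.Agent.X26.LF.S_SIZ := by
  intro m C hm
  obtain ⟨P, hP⟩ := siz1 m (C + 1) hm (by omega)
  refine ⟨P, fun p hp => ?_⟩
  obtain ⟨N, h1, h2⟩ := hP p hp
  refine ⟨N, le_trans (Nat.mul_le_mul_right _ (Nat.le_succ C)) h1,
    le_trans (Nat.mul_le_mul_right _ (Nat.le_succ C)) h2⟩

end Pool.Agent.X43.LF
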